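import Pool.Agent.TH883.MV.LocKc
set_option autoImplicit false

/-! # Kernel bound near a point (project MV of helper407, job 2698) -/

namespace Pool.Agent.TH883.MV

open MeasureTheory Set Complex
open scoped ENNReal NNReal Real ContDiff ComplexConjugate
open Pool.Agent.TH407.MV

/-- the integrand -/
noncomputable def Fi (a0 b0 r δ ε t : ℝ) (A : ℝ → ℂ) (x1 x2 x3 x4 : ℝ) (y : ℝ × ℝ) : ℂ :=
  ((chi ((y.1 - a0) / r) * chi ((y.2 - b0) / r) : ℝ) : ℂ) *
        (A (wv δ y x1) * A (wv δ y x2) * conj (A (wv δ y x3)) * conj (A (wv δ y x4))) *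
        cexp (I * ((t * (ph ε (wv δ y x1) + ph ε (wv δ y x2) - ph ε (wv δ y x3) -
          ph ε (wv δ y x4)) : ℝ) : ℂ))

/-- active base coordinate -/
def cb (j : Fin 2) (a0 b0 : ℝ) : ℝ := if j = 0 then a0 else b0
/-- passive base coordinate -/
def pb (j : Fin 2) (a0 b0 : ℝ) : ℝ := if j = 0 then b0 else a0

lemma box_iff (j : Fin 2) (a0 b0 s u ρ : ℝ) (h1 : |s - cb j a0 b0| ≤ ρ) (h2 : |u - pb j a0 b0| ≤ ρ) :
    |(yy j s u).1 - a0| ≤ ρ ∧ |(yy j s u).2 - b0| ≤ ρ := by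
  fin_cases j
  · exact ⟨h1, h2⟩
  · exact ⟨h2, h1⟩

lemma chi_yy (j : Fin 2) (a0 b0 r s u : ℝ) :
    chi (((yy j s u).1 - a0) / r) * chi (((yy j s u).2 - b0) / r) =
      chi ((u - pb j a0 b0) / r) * chi ((s - cb j a0 b0) / r) := by
  fin_cases j
  · simp [yy, pb, cb, mul_comm]
  · simp [yy, pb, cb]

/-- the amplitude along a line -/
noncomputable def am (j : Fin 2) (a0 b0 r δ u : ℝ) (A : ℝ → ℂ) (x1 x2 x3 x4 s : ℝ) : ℂ :=
  ((chi ((u - pb j a0 b0) / r) : ℂ) * (chi (1 / r * s + (-(cb j a0 b0 / r))) : ℂ)) *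
    (A (wv δ (yy j s u) x1) * A (wv δ (yy j s u) x2) * conj (A (wv δ (yy j s u) x3)) *
      conj (A (wv δ (yy j s u) x4)))

lemma Fi_line (j : Fin 2) (a0 b0 r δ ε t : ℝ) (A : ℝ → ℂ) (x1 x2 x3 x4 s u : ℝ) :
    Fi a0 b0 r δ ε t A x1 x2 x3 x4 (yy j s u) =
      cexp (I * ((t * S4 (fun x => PhiJ j 0 (pt (yy j s u) x δ ε)) x1 x2 x3 x4 : ℝ) : ℂ)) *
        am j a0 b0 r δ u A x1 x2 x3 x4 s := by
  unfold Fi am
  rw [chi_yy]
  have e1 : (s - cb j a0 b0) / r = 1 / r * s + (-(cb j a0 b0 / r)) := by ring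
  have e2 : S4 (fun x => PhiJ j 0 (pt (yy j s u) x δ ε)) x1 x2 x3 x4 =
      ph ε (wv δ (yy j s u) x1) + ph ε (wv δ (yy j s u) x2) - ph ε (wv δ (yy j s u) x3) -
        ph ε (wv δ (yy j s u) x4) := rfl
  rw [e1, e2, Complex.ofReal_mul (chi _), mul_comm]

lemma am_B2 (j : Fin 2) (a0 b0 : ℝ) {r : ℝ} (hr : 0 < r) (hr1 : r ≤ 1) (δ u : ℝ) {A : ℝ → ℂ}
    (hA : AC A) {C : ℝ} (hC : B2 C (fun s => (chi s : ℂ))) {x1 x2 x3 x4 : ℝ}
    (h1 : |x1| ≤ 1) (h2 : |x2| ≤ 1) (h3 : |x3| ≤ 1) (h4 : |x4| ≤ 1) :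
    B2 (256 * C * (1 / r) ^ 2) (am j a0 b0 r δ u A x1 x2 x3 x4) := by
  have hK : 1 ≤ 1 / r := by rw [le_div_iff₀ hr]; linarith
  have c1 : B2 (C * (1 / r) ^ 2) (fun s : ℝ => ((chi (1 / r * s + (-(cb j a0 b0 / r))) : ℝ) : ℂ)) :=
    hC.comp_lin (-(cb j a0 b0 / r)) hK (by rw [abs_of_pos (by positivity)])
  have c2 := c1.const_mul (c := (chi ((u - pb j a0 b0) / r) : ℂ)) (by
    rw [Complex.norm_real, Real.norm_eq_abs]; exact chi_abs _)
  have d := (((A_line hA j u δ x1 h1).mul (A_line hA j u δ x2 h2)).mul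
    (A_line hA j u δ x3 h3).conj).mul (A_line hA j u δ x4 h4).conj
  have e := c2.mul d
  have hn : 4 * (C * (1 / r) ^ 2) * (4 * (4 * (4 * 1 * 1) * 1) * 1) = 256 * C * (1 / r) ^ 2 := by
    ring
  rw [hn] at e
  exact e

lemma am_zero {j : Fin 2} {a0 b0 r δ u : ℝ} (hr : 0 < r) {A : ℝ → ℂ} {x1 x2 x3 x4 s : ℝ}
    (h : 2 * r ≤ |u - pb j a0 b0| ∨ 2 * r ≤ |s - cb j a0 b0|) :
    am j a0 b0 r δ u A x1 x2 x3 x4 s = 0 := by
  unfold am
  rcases h with h | h
  · rw [chi_zero (s := (u - pb j a0 b0) / r)]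
    · simp
    · rw [abs_div, abs_of_pos hr, le_div_iff₀ hr]; exact h
  · have e1 : 1 / r * s + (-(cb j a0 b0 / r)) = (s - cb j a0 b0) / r := by ring
    rw [e1, chi_zero (s := (s - cb j a0 b0) / r)]
    · simp
    · rw [abs_div, abs_of_pos hr, le_div_iff₀ hr]; exact h

lemma am_norm {j : Fin 2} {a0 b0 r δ u : ℝ} {A : ℝ → ℂ} (hA : AC A) {x1 x2 x3 x4 s : ℝ} :
    ‖am j a0 b0 r δ u A x1 x2 x3 x4 s‖ ≤ 1 := by
  obtain ⟨A1, A2, _, _, _, hb⟩ := hA
  have hA1 : ∀ v, ‖A v‖ ≤ 1 := fun v => (hb v).1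
  have hchi : ∀ v, ‖((chi v : ℝ) : ℂ)‖ ≤ 1 := by
    intro v; rw [Complex.norm_real, Real.norm_eq_abs]; exact chi_abs _
  unfold am
  simp only [norm_mul, RCLike.norm_conj]
  refine mul_le_one₀ (mul_le_one₀ (hchi _) (norm_nonneg _) (hchi _)) (by positivity) ?_
  exact mul_le_one₀ (mul_le_one₀ (mul_le_one₀ (hA1 _) (norm_nonneg _) (hA1 _)) (norm_nonneg _)
    (hA1 _)) (norm_nonneg _) (hA1 _)

lemma norm_cexp_I (x : ℝ) : ‖cexp (I * (x : ℂ))‖ = 1 := by
  rw [mul_comm]; exact Complex.norm_exp_ofReal_mul_I x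

lemma A_cont {A : ℝ → ℂ} (hA : AC A) : Continuous A := by
  obtain ⟨A1, A2, _, d, _, _⟩ := hA
  exact continuous_iff_continuousAt.2 fun s => (d s).continuousAt

lemma wv_cont (δ x : ℝ) : Continuous (fun y : ℝ × ℝ => wv δ y x) := by
  unfold wv
  fun_prop

lemma ph_cont (ε : ℝ) : Continuous (ph ε) :=
  continuous_iff_continuousAt.2 fun s => (ph_deriv ε s).continuousAt

lemma Fi_cont (a0 b0 r δ ε t : ℝ) {A : ℝ → ℂ} (hA : AC A) (x1 x2 x3 x4 : ℝ) :
    Continuous (Fi a0 b0 r δ ε t A x1 x2 x3 x4) := by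
  have hc := chi_contDiff.continuous
  have hAc := A_cont hA
  have hp := ph_cont ε
  have hw := wv_cont δ
  have w1 := hw x1
  have w2 := hw x2
  have w3 := hw x3
  have w4 := hw x4
  unfold Fi
  have e1 : Continuous (fun y : ℝ × ℝ => chi ((y.1 - a0) / r)) := hc.comp (by fun_prop)
  have e2 : Continuous (fun y : ℝ × ℝ => chi ((y.2 - b0) / r)) := hc.comp (by fun_prop)
  have f1 := hAc.comp w1
  have f2 := hAc.comp w2
  have f3 := Complex.continuous_conj.comp (hAc.comp w3)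
  have f4 := Complex.continuous_conj.comp (hAc.comp w4)
  have g1 := hp.comp w1
  have g2 := hp.comp w2
  have g3 := hp.comp w3
  have g4 := hp.comp w4
  have e3 : Continuous (fun y : ℝ × ℝ => ((chi ((y.1 - a0) / r) * chi ((y.2 - b0) / r) : ℝ) : ℂ)) :=
    Complex.continuous_ofReal.comp (e1.mul e2)
  have e4 : Continuous (fun y : ℝ × ℝ => cexp (I * ((t * (ph ε (wv δ y x1) + ph ε (wv δ y x2) -
      ph ε (wv δ y x3) - ph ε (wv δ y x4)) : ℝ) : ℂ))) :=
    Complex.continuous_exp.comp (continuous_const.mul (Complex.continuous_ofReal.comp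
      (continuous_const.mul (((g1.add g2).sub g3).sub g4))))
  exact (e3.mul (((f1.mul f2).mul f3).mul f4)).mul e4

lemma Fi_int (a0 b0 : ℝ) {r : ℝ} (hr : 0 < r) (δ ε t : ℝ) {A : ℝ → ℂ} (hA : AC A)
    (x1 x2 x3 x4 : ℝ) : Integrable (Fi a0 b0 r δ ε t A x1 x2 x3 x4) := by
  refine (Fi_cont a0 b0 r δ ε t hA x1 x2 x3 x4).integrable_of_hasCompactSupport ?_
  refine HasCompactSupport.intro (K := Icc (a0 - 2 * r) (a0 + 2 * r) ×ˢ Icc (b0 - 2 * r) (b0 + 2 * r))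
    (isCompact_Icc.prod isCompact_Icc) ?_
  intro y hy
  have e := Fi_line 0 a0 b0 r δ ε t A x1 x2 x3 x4 y.1 y.2
  have hyy : yy 0 y.1 y.2 = y := rfl
  rw [hyy] at e
  rw [e, am_zero hr, mul_zero]
  by_contra hcon
  push Not at hcon
  obtain ⟨h1, h2⟩ := hcon
  have h1' : |y.2 - b0| < 2 * r := h1
  have h2' : |y.1 - a0| < 2 * r := h2
  rw [abs_lt] at h1' h2'
  exact hy ⟨⟨by linarith [h2'.1], by linarith [h2'.2]⟩, ⟨by linarith [h1'.1], by linarith [h1'.2]⟩⟩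

lemma fubini (j : Fin 2) {F : ℝ × ℝ → ℂ} (hF : Integrable F) :
    ∫ y, F y = ∫ u, ∫ s, F (yy j s u) := by
  fin_cases j
  · rw [Measure.volume_eq_prod] at hF ⊢
    rw [integral_prod_symm F hF]
    rfl
  · rw [Measure.volume_eq_prod] at hF ⊢
    rw [integral_prod F hF]
    rfl

/-- an integral of a bounded function with support in an interval -/
lemma int_le {f : ℝ → ℂ} {c r M : ℝ} (hr : 0 < r) (_hM : 0 ≤ M) (h1 : ∀ s, |s - c| ≤ 2 * r → ‖f s‖ ≤ M)
    (h2 : ∀ s, 2 * r < |s - c| → f s = 0) : ‖∫ s, f s‖ ≤ 4 * r * M := by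
  have hI : Integrable ((Icc (c - 2 * r) (c + 2 * r)).indicator (fun _ : ℝ => M)) :=
    (integrable_indicator_iff measurableSet_Icc).2 (integrableOn_const (by simp))
  have h3 := norm_integral_le_of_norm_le (f := f) hI (Filter.Eventually.of_forall fun s => ?_)
  · refine h3.trans (le_of_eq ?_)
    rw [integral_indicator measurableSet_Icc, setIntegral_const]
    simp only [Measure.real, Real.volume_Icc, smul_eq_mul]
    rw [ENNReal.toReal_ofReal (by linarith)]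
    ring
  · by_cases hs : |s - c| ≤ 2 * r
    · have hmem : s ∈ Icc (c - 2 * r) (c + 2 * r) := by
        rw [abs_le] at hs
        exact ⟨by linarith [hs.1], by linarith [hs.2]⟩
      rw [indicator_of_mem hmem]
      exact h1 s hs
    · push Not at hs
      have hmem : s ∉ Icc (c - 2 * r) (c + 2 * r) := by
        intro hm
        have : |s - c| ≤ 2 * r := abs_le.2 ⟨by linarith [hm.1], by linarith [hm.2]⟩
        linarith
      rw [indicator_of_notMem hmem, h2 s hs, norm_zero]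

theorem locK_of (h1 : NonStat) (h2 : SumLem) : LocK := by
  intro a0 b0 δ0 ε0 ha hb
  obtain ⟨r, c0, L0, hr, hr1, hc0, hL0, hph⟩ := phase_bounds h2 a0 b0 δ0 ε0 ha hb
  obtain ⟨C1, hC1, hns⟩ := h1
  obtain ⟨Cχ, hCχ1, hCχ⟩ := chi_B2
  set N := 256 * Cχ * (1 / r) ^ 2 with hN
  have hN0 : 0 ≤ N := by positivity
  set L := max 1 (L0 / c0) with hL
  have hL1 : 1 ≤ L := le_max_left _ _
  have hLc : L0 ≤ L * c0 := by
    have : L0 / c0 ≤ L := le_max_right _ _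
    rwa [div_le_iff₀ hc0] at this
  set K := 16 * (C1 * L ^ 2 * N / c0 ^ 2) with hK
  have hK0 : 0 ≤ K := by positivity
  refine ⟨r, 64 + 4 * K, hr, hr1, by positivity, ?_⟩
  intro δ ε t hδ hε ht A hA x1 x2 x3 x4 hx1 hx2 hx3 hx4
  change ‖∫ y : ℝ × ℝ, Fi a0 b0 r δ ε t A x1 x2 x3 x4 y‖ ≤ _
  have hint := Fi_int a0 b0 hr δ ε t hA x1 x2 x3 x4
  obtain ⟨j, hj⟩ := hph x1 x2 x3 x4 hx1 hx2 hx3 hx4
  have hD := dS_nonneg x1 x2 x3 x4
  set D := dS x1 x2 x3 x4 with hDdef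
  have hT : 0 ≤ t * D := by positivity
  -- reduction to lines
  have hred : ∀ M : ℝ, 0 ≤ M → (∀ u, |u - pb j a0 b0| ≤ 2 * r →
      ‖∫ s, Fi a0 b0 r δ ε t A x1 x2 x3 x4 (yy j s u)‖ ≤ M) →
      ‖∫ y : ℝ × ℝ, Fi a0 b0 r δ ε t A x1 x2 x3 x4 y‖ ≤ 4 * r * M := by
    intro M hM hu
    rw [fubini j hint]
    refine int_le (c := pb j a0 b0) hr hM hu ?_
    intro u hu
    have : ∀ s, Fi a0 b0 r δ ε t A x1 x2 x3 x4 (yy j s u) = 0 := by
      intro s
      rw [Fi_line, am_zero hr (Or.inl hu.le), mul_zero]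
    simp only [this, integral_zero]
  rcases le_or_gt (t * D) 1 with hTD | hTD
  · -- trivial bound
    have h3 : ‖∫ y : ℝ × ℝ, Fi a0 b0 r δ ε t A x1 x2 x3 x4 y‖ ≤ 4 * r * (4 * r * 1) := by
      refine hred _ (by positivity) fun u hu => ?_
      refine int_le (c := cb j a0 b0) hr zero_le_one ?_ ?_
      · intro s _
        rw [Fi_line, norm_mul, norm_cexp_I, one_mul]
        exact am_norm hA
      · intro s hs
        rw [Fi_line, am_zero hr (Or.inr hs.le), mul_zero]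
    have h4 : 4 * r * (4 * r * 1) ≤ 16 := by nlinarith
    refine h3.trans (h4.trans ?_)
    rw [le_div_iff₀ (by positivity)]
    have h5 : (1 + t * D) ^ 2 ≤ 4 := by nlinarith
    nlinarith
  · -- non-stationary phase
    have hDpos : 0 < D := by
      rcases hD.eq_or_lt with h | h
      · rw [← h, mul_zero] at hTD; linarith
      · exact h
    have ht0 : 0 < t := by linarith
    set m := c0 * D with hm
    have hm0 : 0 < m := by positivity
    have hline : ∀ u, |u - pb j a0 b0| ≤ 2 * r →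
        ‖∫ s, Fi a0 b0 r δ ε t A x1 x2 x3 x4 (yy j s u)‖ ≤
          C1 * L ^ 2 * N * ((cb j a0 b0 + 2 * r) - (cb j a0 b0 - 2 * r)) / (t * m) ^ 2 := by
      intro u hu
      obtain ⟨f1, f2, cf2, df, df1, bf⟩ := am_B2 j a0 b0 hr hr1 δ u hA hCχ (hx1.trans hr1)
        (hx2.trans hr1) (hx3.trans hr1) (hx4.trans hr1)
      have hQ : ∀ k s, HasDerivAt (fun s => S4 (fun x => PhiJ j k (pt (yy j s u) x δ ε)) x1 x2 x3 x4)
          (S4 (fun x => PhiJ j (k + 1) (pt (yy j s u) x δ ε)) x1 x2 x3 x4) s := by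
        intro k s
        have hs := PhiJ_smooth j k
        exact (((has_y hs j s u x1 δ ε).add (has_y hs j s u x2 δ ε)).sub
          (has_y hs j s u x3 δ ε)).sub (has_y hs j s u x4 δ ε)
      have h3 := hns (cb j a0 b0 - 2 * r) (cb j a0 b0 + 2 * r) m L N t
        (fun s => S4 (fun x => PhiJ j 0 (pt (yy j s u) x δ ε)) x1 x2 x3 x4)
        (fun s => S4 (fun x => PhiJ j 1 (pt (yy j s u) x δ ε)) x1 x2 x3 x4)
        (fun s => S4 (fun x => PhiJ j 2 (pt (yy j s u) x δ ε)) x1 x2 x3 x4)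
        (fun s => S4 (fun x => PhiJ j 3 (pt (yy j s u) x δ ε)) x1 x2 x3 x4)
        (am j a0 b0 r δ u A x1 x2 x3 x4) f1 f2 (by linarith) hm0 hL1 hN0 ht0 (hQ 0) (hQ 1) (hQ 2)
        (continuous_iff_continuousAt.2 fun s => (hQ 3 s).continuousAt) df df1 cf2 ?_ ?_
      · refine le_trans (le_of_eq ?_) h3
        congr 2
        funext s
        rw [Fi_line]
      · intro s hs
        apply am_zero hr
        right
        by_contra hcon
        push Not at hcon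
        rw [abs_lt] at hcon
        exact hs ⟨by linarith [hcon.1], by linarith [hcon.2]⟩
      · intro s hs
        have hs' : |s - cb j a0 b0| ≤ 2 * r := abs_le.2 ⟨by linarith [hs.1], by linarith [hs.2]⟩
        obtain ⟨b1, b2⟩ := box_iff j a0 b0 s u (2 * r) hs' hu
        obtain ⟨q1, q2, q3⟩ := hj δ ε (yy j s u) hδ hε b1 b2
        have hLm : L0 * D ≤ L * m := by
          rw [hm, ← mul_assoc]
          exact mul_le_mul_of_nonneg_right hLc hD
        exact ⟨q1, q2.trans hLm, q3.trans hLm, bf s⟩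
    have h3 := hred _ (div_nonneg (mul_nonneg (by positivity) (by linarith)) (by positivity)) hline
    refine h3.trans ?_
    have e1 : 4 * r * (C1 * L ^ 2 * N * ((cb j a0 b0 + 2 * r) - (cb j a0 b0 - 2 * r)) / (t * m) ^ 2) =
        r ^ 2 * (K / (t * D) ^ 2) := by
      rw [hK, hm]
      field_simp
      ring
    rw [e1]
    have h4 : r ^ 2 * (K / (t * D) ^ 2) ≤ K / (t * D) ^ 2 := by
      have : 0 ≤ K / (t * D) ^ 2 := by positivity
      have hr2 : r ^ 2 ≤ 1 := by nlinarith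
      nlinarith
    refine h4.trans ?_
    rw [div_le_div_iff₀ (by positivity) (by positivity)]
    have h5 : (1 + t * D) ^ 2 ≤ 4 * (t * D) ^ 2 := by nlinarith
    have h6 : 0 ≤ (t * D) ^ 2 := by positivity
    nlinarith [mul_le_mul_of_nonneg_left h5 hK0]

end Pool.Agent.TH883.MV
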