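import Mathlib
import Pool.Agent.TH407.MV.Defs
set_option autoImplicit false

/-! # Kernel bound near a point, part 1: derivatives of the phase (project MV of helper407) -/

namespace Pool.Agent.TH883.MV

open MeasureTheory Set Complex
open scoped ENNReal NNReal Real ContDiff
open Pool.Agent.TH407.MV

/-- the parameter space `(y₁, y₂, x, δ, ε)` -/
abbrev E5 := ℝ × ℝ × ℝ × ℝ × ℝ

/-- the phase -/
noncomputable def Phi (z : E5) : ℝ := ph z.2.2.2.2 (wv z.2.2.2.1 (z.1, z.2.1) z.2.2.1)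

/-- directional derivative -/
noncomputable def Dv (v : E5) (F : E5 → ℝ) (z : E5) : ℝ := fderiv ℝ F z v

/-- direction of `y_j` -/
def ev (j : Fin 2) : E5 := if j = 0 then (1, 0, 0, 0, 0) else (0, 1, 0, 0, 0)

/-- direction of `x` -/
def ex : E5 := (0, 0, 1, 0, 0)

/-- the point with active coordinate `s` (number `j`) and passive coordinate `u` -/
def yy (j : Fin 2) (s u : ℝ) : ℝ × ℝ := if j = 0 then (s, u) else (u, s)

/-- points of `E5` -/
def pt (y : ℝ × ℝ) (x δ ε : ℝ) : E5 := (y.1, y.2, x, δ, ε)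

lemma Phi_smooth : ContDiff ℝ ∞ Phi := by
  unfold Phi ph wv cd
  fun_prop (disch := first | (intro z; positivity) | positivity)

lemma Dv_smooth {F : E5 → ℝ} (hF : ContDiff ℝ ∞ F) (v : E5) : ContDiff ℝ ∞ (Dv v F) := by
  unfold Dv
  exact (hF.fderiv_right (m := ∞) (by norm_cast)).clm_apply contDiff_const

lemma has_x {F : E5 → ℝ} (hF : ContDiff ℝ ∞ F) (y : ℝ × ℝ) (x δ ε : ℝ) :
    HasDerivAt (fun x => F (pt y x δ ε)) (Dv ex F (pt y x δ ε)) x := by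
  have h1 : HasFDerivAt F (fderiv ℝ F (pt y x δ ε)) (pt y x δ ε) :=
    (hF.differentiable (by norm_cast) (pt y x δ ε)).hasFDerivAt
  have h2 : HasDerivAt (fun x : ℝ => (y.1, y.2, x, δ, ε)) ex x :=
    (hasDerivAt_const x y.1).prodMk ((hasDerivAt_const x y.2).prodMk
      ((hasDerivAt_id x).prodMk ((hasDerivAt_const x δ).prodMk (hasDerivAt_const x ε))))
  exact h1.comp_hasDerivAt x h2

lemma has_y {F : E5 → ℝ} (hF : ContDiff ℝ ∞ F) (j : Fin 2) (s u x δ ε : ℝ) :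
    HasDerivAt (fun s => F (pt (yy j s u) x δ ε)) (Dv (ev j) F (pt (yy j s u) x δ ε)) s := by
  have h1 : HasFDerivAt F (fderiv ℝ F (pt (yy j s u) x δ ε)) (pt (yy j s u) x δ ε) :=
    (hF.differentiable (by norm_cast) _).hasFDerivAt
  have h2 : HasDerivAt (fun s : ℝ => pt (yy j s u) x δ ε) (ev j) s := by
    fin_cases j
    · simp only [pt, yy, ev]
      exact (hasDerivAt_id s).prodMk ((hasDerivAt_const s u).prodMk
        ((hasDerivAt_const s x).prodMk ((hasDerivAt_const s δ).prodMk (hasDerivAt_const s ε))))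
    · simp only [pt, yy, ev]
      exact (hasDerivAt_const s u).prodMk ((hasDerivAt_id s).prodMk
        ((hasDerivAt_const s x).prodMk ((hasDerivAt_const s δ).prodMk (hasDerivAt_const s ε))))
  exact h1.comp_hasDerivAt s h2

/-- iterated derivatives of the phase in `y_j` -/
noncomputable def PhiJ (j : Fin 2) : ℕ → E5 → ℝ
  | 0 => Phi
  | (k + 1) => Dv (ev j) (PhiJ j k)

lemma PhiJ_smooth (j : Fin 2) (k : ℕ) : ContDiff ℝ ∞ (PhiJ j k) := by
  induction k with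
  | zero => exact Phi_smooth
  | succ k ih => exact Dv_smooth ih _

lemma ph_deriv (ε v : ℝ) : HasDerivAt (ph ε) (v / √(1 + ε ^ 2 * v ^ 2)) v := by
  unfold ph
  have hpos : 0 < 1 + ε ^ 2 * v ^ 2 := by positivity
  have h1 : HasDerivAt (fun v : ℝ => 1 + ε ^ 2 * v ^ 2) (ε ^ 2 * (2 * v)) v := by
    have := ((hasDerivAt_pow 2 v).const_mul (ε ^ 2)).const_add 1
    simpa using this
  have h2 := h1.sqrt hpos.ne'
  have h3 := h2.const_add 1
  have h4 : HasDerivAt (fun v : ℝ => v ^ 2) (2 * v) v := by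
    simpa using hasDerivAt_pow 2 v
  have hne : 1 + √(1 + ε ^ 2 * v ^ 2) ≠ 0 := by positivity
  have h5 := h4.div h3 hne
  refine h5.congr_deriv ?_
  set s := √(1 + ε ^ 2 * v ^ 2) with hs
  have hs0 : 0 < s := Real.sqrt_pos.2 hpos
  have hs2 : s ^ 2 = 1 + ε ^ 2 * v ^ 2 := Real.sq_sqrt hpos.le
  have hs1 : 1 + s ≠ 0 := by positivity
  field_simp
  linear_combination v * hs2

lemma wv_yy (j : Fin 2) (s u x δ : ℝ) : wv δ (yy j s u) x =
    (cd δ x * (if j = 0 then 1 else x)) * s + (cd δ x * (if j = 0 then x else 1)) * u := by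
  fin_cases j <;> simp [wv, yy] <;> ring

lemma PhiJ_one (j : Fin 2) (y : ℝ × ℝ) (x δ ε : ℝ) : PhiJ j 1 (pt y x δ ε) =
    wv δ y x / √(1 + ε ^ 2 * (wv δ y x) ^ 2) * (cd δ x * (if j = 0 then 1 else x)) := by
  obtain ⟨s, u, rfl⟩ : ∃ s u, y = yy j s u := by
    fin_cases j
    · exact ⟨y.1, y.2, rfl⟩
    · exact ⟨y.2, y.1, rfl⟩
  have h1 := has_y Phi_smooth j s u x δ ε
  have h2 : HasDerivAt (fun s => wv δ (yy j s u) x) (cd δ x * (if j = 0 then 1 else x)) s := by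
    have h3 : HasDerivAt (fun s => (cd δ x * (if j = 0 then 1 else x)) * s +
        (cd δ x * (if j = 0 then x else 1)) * u) (cd δ x * (if j = 0 then 1 else x)) s := by
      have := ((hasDerivAt_id s).const_mul (cd δ x * (if j = 0 then 1 else x))).add_const
        ((cd δ x * (if j = 0 then x else 1)) * u)
      simpa using this
    refine h3.congr_of_eventuallyEq (Filter.Eventually.of_forall fun s => ?_)
    exact wv_yy j s u x δ
  have h4 := (ph_deriv ε (wv δ (yy j s u) x)).comp s h2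
  exact h1.unique h4

lemma PhiJ_ratio (y : ℝ × ℝ) (x δ ε : ℝ) : PhiJ 1 1 (pt y x δ ε) = x * PhiJ 0 1 (pt y x δ ε) := by
  rw [PhiJ_one, PhiJ_one]
  simp
  ring

lemma PhiJ_sq (a b x δ ε : ℝ) : PhiJ 0 1 (pt (a, b) x δ ε) ^ 2 *
    ((1 + δ ^ 2 * x ^ 2) * (1 + δ ^ 2 * x ^ 2 + ε ^ 2 * (a + x * b) ^ 2)) = (a + x * b) ^ 2 := by
  rw [PhiJ_one]
  simp only [if_true, mul_one]
  set w := wv δ (a, b) x with hw
  have hq : 0 < 1 + δ ^ 2 * x ^ 2 := by positivity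
  have hc2 : cd δ x ^ 2 * (1 + δ ^ 2 * x ^ 2) = 1 := by
    unfold cd
    rw [inv_pow, Real.sq_sqrt hq.le, inv_mul_cancel₀ hq.ne']
  have hw2 : w ^ 2 * (1 + δ ^ 2 * x ^ 2) = (a + x * b) ^ 2 := by
    rw [hw]
    unfold wv
    simp only
    linear_combination (a + x * b) ^ 2 * hc2
  have hp : 0 < 1 + ε ^ 2 * w ^ 2 := by positivity
  rw [mul_pow, div_pow, Real.sq_sqrt hp.le]
  have h3 : 1 + δ ^ 2 * x ^ 2 + ε ^ 2 * (a + x * b) ^ 2 = (1 + ε ^ 2 * w ^ 2) * (1 + δ ^ 2 * x ^ 2) := by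
    rw [← hw2]; ring
  rw [h3]
  have h4 : w ^ 2 / (1 + ε ^ 2 * w ^ 2) * cd δ x ^ 2 * ((1 + δ ^ 2 * x ^ 2) *
      ((1 + ε ^ 2 * w ^ 2) * (1 + δ ^ 2 * x ^ 2))) =
      (w ^ 2 * (1 + δ ^ 2 * x ^ 2)) * (cd δ x ^ 2 * (1 + δ ^ 2 * x ^ 2)) := by
    field_simp
  rw [h4, hc2, hw2, mul_one]

section base
variable (a b δ ε : ℝ)

/-- values at the base point -/
noncomputable def P0 : ℝ := PhiJ 0 1 (pt (a, b) 0 δ ε)
/-- values at the base point -/
noncomputable def P1 : ℝ := Dv ex (PhiJ 0 1) (pt (a, b) 0 δ ε)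
/-- values at the base point -/
noncomputable def P2 : ℝ := Dv ex (Dv ex (PhiJ 0 1)) (pt (a, b) 0 δ ε)

lemma R1_eq : Dv ex (PhiJ 1 1) (pt (a, b) 0 δ ε) = P0 a b δ ε ∧
    Dv ex (Dv ex (PhiJ 1 1)) (pt (a, b) 0 δ ε) = 2 * P1 a b δ ε := by
  have hR : ∀ x, Dv ex (PhiJ 1 1) (pt (a, b) x δ ε) =
      PhiJ 0 1 (pt (a, b) x δ ε) + x * Dv ex (PhiJ 0 1) (pt (a, b) x δ ε) := by
    intro x
    have h1 := has_x (PhiJ_smooth 1 1) (a, b) x δ ε
    have h2 := (hasDerivAt_id x).mul (has_x (PhiJ_smooth 0 1) (a, b) x δ ε)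
    have h3 : HasDerivAt (fun x => PhiJ 1 1 (pt (a, b) x δ ε)) _ x :=
      h2.congr_of_eventuallyEq (Filter.Eventually.of_forall fun x => PhiJ_ratio (a, b) x δ ε)
    rw [h1.unique h3]
    simp
  refine ⟨by rw [hR]; simp [P0], ?_⟩
  have h1 := has_x (Dv_smooth (PhiJ_smooth 1 1) ex) (a, b) 0 δ ε
  have h2 := (has_x (PhiJ_smooth 0 1) (a, b) 0 δ ε).add
    ((hasDerivAt_id (0 : ℝ)).mul (has_x (Dv_smooth (PhiJ_smooth 0 1) ex) (a, b) 0 δ ε))
  have h3 : HasDerivAt (fun x => Dv ex (PhiJ 1 1) (pt (a, b) x δ ε)) _ 0 :=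
    h2.congr_of_eventuallyEq (Filter.Eventually.of_forall fun x => hR x)
  rw [h1.unique h3]
  simp [P1]
  ring

/-- the determinant -/
theorem det_pos (ha : a ≠ 0) (hb : b ≠ 0 ∨ δ ≠ 0) :
    0 < 2 * P1 a b δ ε ^ 2 - P0 a b δ ε * P2 a b δ ε := by
  set p : ℝ → ℝ := fun x => PhiJ 0 1 (pt (a, b) x δ ε) with hp
  set p1 : ℝ → ℝ := fun x => Dv ex (PhiJ 0 1) (pt (a, b) x δ ε) with hp1
  have hd : ∀ x, HasDerivAt p (p1 x) x := fun x => has_x (PhiJ_smooth 0 1) (a, b) x δ ε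
  have hd1 : ∀ x, HasDerivAt p1 (Dv ex (Dv ex (PhiJ 0 1)) (pt (a, b) x δ ε)) x :=
    fun x => has_x (Dv_smooth (PhiJ_smooth 0 1) ex) (a, b) x δ ε
  -- the polynomial
  set D : ℝ → ℝ := fun x => (1 + δ ^ 2 * x ^ 2) * (1 + δ ^ 2 * x ^ 2 + ε ^ 2 * (a + x * b) ^ 2) with hD
  set D1 : ℝ → ℝ := fun x => (2 * δ ^ 2 * x) * (1 + δ ^ 2 * x ^ 2 + ε ^ 2 * (a + x * b) ^ 2) +
    (1 + δ ^ 2 * x ^ 2) * (2 * δ ^ 2 * x + ε ^ 2 * (2 * (a + x * b) * b)) with hD1
  have hq : ∀ x, HasDerivAt (fun x : ℝ => 1 + δ ^ 2 * x ^ 2) (2 * δ ^ 2 * x) x := by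
    intro x
    have := ((hasDerivAt_pow 2 x).const_mul (δ ^ 2)).const_add 1
    refine this.congr_deriv ?_
    simp; ring
  have hu : ∀ x, HasDerivAt (fun x : ℝ => (a + x * b) ^ 2) (2 * (a + x * b) * b) x := by
    intro x
    have h1 : HasDerivAt (fun x : ℝ => a + x * b) b x := by
      have := ((hasDerivAt_id x).mul_const b).const_add a
      simpa using this
    have := h1.pow 2
    refine this.congr_deriv ?_
    simp
  have hDd : ∀ x, HasDerivAt D (D1 x) x := by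
    intro x
    exact (hq x).mul ((hq x).add ((hu x).const_mul (ε ^ 2)))
  have e0 : ∀ x, p x ^ 2 * D x = (a + x * b) ^ 2 := fun x => PhiJ_sq a b x δ ε
  have e1 : ∀ x, 2 * p x * p1 x * D x + p x ^ 2 * D1 x = 2 * (a + x * b) * b := by
    intro x
    have h1 := ((hd x).pow 2).mul (hDd x)
    have h2 : HasDerivAt (fun x : ℝ => (a + x * b) ^ 2) _ x :=
      h1.congr_of_eventuallyEq (Filter.Eventually.of_forall fun x => (e0 x).symm)
    have := h2.unique (hu x)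
    rw [← this]
    simp
  have hD1d : HasDerivAt D1 (4 * δ ^ 2 + ε ^ 2 * (2 * δ ^ 2 * a ^ 2 + 2 * b ^ 2)) 0 := by
    have hx : HasDerivAt (fun x : ℝ => 2 * δ ^ 2 * x) (2 * δ ^ 2) 0 := by
      have := (hasDerivAt_id (0 : ℝ)).const_mul (2 * δ ^ 2)
      simpa using this
    have hub : HasDerivAt (fun x : ℝ => 2 * (a + x * b) * b) (2 * b ^ 2) 0 := by
      have h1 : HasDerivAt (fun x : ℝ => a + x * b) b 0 := by
        have := ((hasDerivAt_id (0 : ℝ)).mul_const b).const_add a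
        simpa using this
      have := (h1.const_mul 2).mul_const b
      refine this.congr_deriv ?_
      ring
    have h1 := (hx.mul ((hq 0).add ((hu 0).const_mul (ε ^ 2)))).add
      ((hq 0).mul (hx.add (hub.const_mul (ε ^ 2))))
    refine h1.congr_deriv ?_
    simp
    ring
  have e2 : 2 * p1 0 ^ 2 * D 0 + 2 * p 0 * P2 a b δ ε * D 0 + 4 * p 0 * p1 0 * D1 0 +
      p 0 ^ 2 * (4 * δ ^ 2 + ε ^ 2 * (2 * δ ^ 2 * a ^ 2 + 2 * b ^ 2)) = 2 * b ^ 2 := by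
    have h1 := ((((hd 0).const_mul 2).mul (hd1 0)).mul (hDd 0)).add (((hd 0).pow 2).mul hD1d)
    have hub : HasDerivAt (fun x : ℝ => 2 * (a + x * b) * b) (2 * b ^ 2) 0 := by
      have h1 : HasDerivAt (fun x : ℝ => a + x * b) b 0 := by
        have := ((hasDerivAt_id (0 : ℝ)).mul_const b).const_add a
        simpa using this
      have := (h1.const_mul 2).mul_const b
      refine this.congr_deriv ?_
      ring
    have h2 : HasDerivAt (fun x : ℝ => 2 * (a + x * b) * b) _ 0 :=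
      h1.congr_of_eventuallyEq (Filter.Eventually.of_forall fun x => (e1 x).symm)
    have h3 := h2.unique hub
    simp only [Pi.mul_apply, Pi.pow_apply] at h3
    unfold P2
    norm_num at h3
    linear_combination h3
  have f0 := e0 0
  have f1 := e1 0
  have hD0 : D 0 = 1 + ε ^ 2 * a ^ 2 := by rw [hD]; simp
  have hD10 : D1 0 = 2 * ε ^ 2 * a * b := by rw [hD1]; simp; ring
  rw [hD0] at f0 f1 e2
  rw [hD10] at f1 e2
  simp only [zero_mul, add_zero] at f0 f1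
  have hp0 : p 0 = P0 a b δ ε := rfl
  have hp10 : p1 0 = P1 a b δ ε := rfl
  rw [hp0] at f0 f1 e2
  rw [hp10] at f1 e2
  set X0 := P0 a b δ ε
  set X1 := P1 a b δ ε
  set X2 := P2 a b δ ε
  set V := 1 + ε ^ 2 * a ^ 2 with hV
  have hVp : 0 < V := by positivity
  have ha2 : 0 < a ^ 2 := by positivity
  -- X0 X1 = a b / V ^ 2
  have g0 : X0 ^ 2 = a ^ 2 / V := by
    rw [eq_div_iff hVp.ne']; exact f0
  have g1 : X0 * X1 * V ^ 2 = a * b := by
    have h1 : 2 * (X0 * X1) * V ^ 2 + (X0 ^ 2 * V) * (2 * ε ^ 2 * a * b) = 2 * a * b * V := by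
      linear_combination V * f1
    rw [f0] at h1
    rw [hV] at h1 ⊢
    linear_combination (1 / 2 : ℝ) * h1
  have g2 : X1 ^ 2 * V ^ 3 = b ^ 2 := by
    have h1 : (X0 ^ 2 * V) * (X1 ^ 2 * V ^ 3) = (X0 * X1 * V ^ 2) ^ 2 := by ring
    rw [f0, g1] at h1
    have h2 : a ^ 2 * (X1 ^ 2 * V ^ 3) = a ^ 2 * b ^ 2 := by rw [h1]; ring
    exact mul_left_cancel₀ ha2.ne' h2
  have key : (2 * X1 ^ 2 - X0 * X2) * V ^ 3 =
      b ^ 2 * (2 + 3 * (ε ^ 2 * a ^ 2)) + δ ^ 2 * a ^ 2 * (2 + ε ^ 2 * a ^ 2) * V := by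
    have h1 : 2 * (X1 ^ 2 * V ^ 3) + 2 * (X0 * X2) * V ^ 3 +
        4 * (X0 * X1 * V ^ 2) * (2 * ε ^ 2 * a * b) +
        (X0 ^ 2 * V) * V * (4 * δ ^ 2 + ε ^ 2 * (2 * δ ^ 2 * a ^ 2 + 2 * b ^ 2)) =
        2 * b ^ 2 * V ^ 2 := by
      linear_combination V ^ 2 * e2
    rw [g1, g2, f0] at h1
    have h2 : (2 * X1 ^ 2 - X0 * X2) * V ^ 3 = 2 * (X1 ^ 2 * V ^ 3) - X0 * X2 * V ^ 3 := by ring
    rw [h2, g2]
    rw [hV] at h1 ⊢
    linear_combination (-1 / 2 : ℝ) * h1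
  have hpos : 0 < b ^ 2 * (2 + 3 * (ε ^ 2 * a ^ 2)) + δ ^ 2 * a ^ 2 * (2 + ε ^ 2 * a ^ 2) * V := by
    rcases hb with hb | hb
    · have : 0 < b ^ 2 := by positivity
      positivity
    · have : 0 < δ ^ 2 := by positivity
      positivity
  rw [← key] at hpos
  exact pos_of_mul_pos_left hpos (by positivity)

end base

end Pool.Agent.TH883.MV
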