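import Pool.Agent.TH883.MV.LocKa
set_option autoImplicit false

/-! # Kernel bound near a point, part 2: bounds for the phase (project MV of helper407) -/

namespace Pool.Agent.TH883.MV

open MeasureTheory Set Complex
open scoped ENNReal NNReal Real ContDiff
open Pool.Agent.TH407.MV

/-- symmetric sums -/
def S4 (f : ℝ → ℝ) (x1 x2 x3 x4 : ℝ) : ℝ := f x1 + f x2 - f x3 - f x4

lemma dist_pt {y : ℝ × ℝ} {x δ ε a0 b0 δ0 ε0 ρ : ℝ} (h1 : |y.1 - a0| < ρ) (h2 : |y.2 - b0| < ρ)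
    (h3 : |x| < ρ) (h4 : |δ - δ0| < ρ) (h5 : |ε - ε0| < ρ) :
    dist (pt y x δ ε) (pt (a0, b0) 0 δ0 ε0) < ρ := by
  unfold pt
  simp only [Prod.dist_eq, Real.dist_eq, sub_zero]
  exact max_lt h1 (max_lt h2 (max_lt h3 (max_lt h4 h5)))

lemma dS_nonneg (x1 x2 x3 x4 : ℝ) : 0 ≤ dS x1 x2 x3 x4 := by unfold dS; positivity

lemma upper (hS : SumLem) (a0 b0 δ0 ε0 : ℝ) {F : E5 → ℝ} (hF : ContDiff ℝ ∞ F) :
    ∃ L : ℝ, 0 < L ∧ ∀ r : ℝ, 0 < r → r ≤ 1 → ∀ (δ ε : ℝ) (y : ℝ × ℝ), |δ - δ0| ≤ r →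
      |ε - ε0| ≤ r → |y.1 - a0| ≤ 2 * r → |y.2 - b0| ≤ 2 * r → ∀ x1 x2 x3 x4 : ℝ, |x1| ≤ r →
      |x2| ≤ r → |x3| ≤ r → |x4| ≤ r →
      |S4 (fun x => F (pt y x δ ε)) x1 x2 x3 x4| ≤ L * dS x1 x2 x3 x4 := by
  set z0 := pt (a0, b0) 0 δ0 ε0 with hz0
  obtain ⟨N1, hN1⟩ := (isCompact_closedBall z0 4).exists_bound_of_continuousOn
    (Dv_smooth hF ex).continuous.continuousOn
  obtain ⟨N2, hN2⟩ := (isCompact_closedBall z0 4).exists_bound_of_continuousOn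
    (Dv_smooth (Dv_smooth hF ex) ex).continuous.continuousOn
  refine ⟨4 * (|N1| + |N2| + 1), by positivity, ?_⟩
  intro r hr hr1 δ ε y hδ hε hy1 hy2 x1 x2 x3 x4 h1 h2 h3 h4
  refine hS r (|N1| + |N2| + 1) (fun x => F (pt y x δ ε)) (fun x => Dv ex F (pt y x δ ε))
    (fun x => Dv ex (Dv ex F) (pt y x δ ε)) hr hr1 (by positivity) ?_ x1 x2 x3 x4 h1 h2 h3 h4
  intro x hx
  have hmem : pt y x δ ε ∈ Metric.closedBall z0 4 := by
    rw [Metric.mem_closedBall]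
    refine (dist_pt (by linarith) (by linarith) ?_ (by linarith) (by linarith)).le
    rw [abs_lt]
    constructor <;> linarith [hx.1, hx.2]
  refine ⟨has_x hF y x δ ε, has_x (Dv_smooth hF ex) y x δ ε, ?_, ?_⟩
  · have := hN1 _ hmem
    rw [Real.norm_eq_abs] at this
    have h5 := le_abs_self N1
    have h6 := abs_nonneg N2
    linarith
  · have := hN2 _ hmem
    rw [Real.norm_eq_abs] at this
    have h5 := le_abs_self N2
    have h6 := abs_nonneg N1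
    linarith

lemma approx (hS : SumLem) (a0 b0 δ0 ε0 : ℝ) {F : E5 → ℝ} (hF : ContDiff ℝ ∞ F) {κ : ℝ}
    (hκ : 0 < κ) : ∃ ρ : ℝ, 0 < ρ ∧ ρ ≤ 1 ∧ ∀ r : ℝ, 0 < r → r ≤ ρ → ∀ (δ ε : ℝ) (y : ℝ × ℝ),
      |δ - δ0| ≤ r → |ε - ε0| ≤ r → |y.1 - a0| ≤ 2 * r → |y.2 - b0| ≤ 2 * r →
      ∀ x1 x2 x3 x4 : ℝ, |x1| ≤ r → |x2| ≤ r → |x3| ≤ r → |x4| ≤ r →
      |S4 (fun x => F (pt y x δ ε)) x1 x2 x3 x4 -
        (Dv ex F (pt (a0, b0) 0 δ0 ε0) * (x1 + x2 - x3 - x4) -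
          Dv ex (Dv ex F) (pt (a0, b0) 0 δ0 ε0) * (x1 * x2 - x3 * x4))| ≤
        κ * dS x1 x2 x3 x4 := by
  set z0 := pt (a0, b0) 0 δ0 ε0 with hz0
  set G1 := Dv ex F z0 with hG1
  set G2 := Dv ex (Dv ex F) z0 with hG2
  obtain ⟨ρ1, hρ1, hc1⟩ := Metric.continuousAt_iff.1
    (Dv_smooth hF ex).continuous.continuousAt (κ / 12) (by positivity)
  obtain ⟨ρ2, hρ2, hc2⟩ := Metric.continuousAt_iff.1
    (Dv_smooth (Dv_smooth hF ex) ex).continuous.continuousAt (κ / 12) (by positivity)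
  set ρ3 := κ / (36 * (|G2| + 1)) with hρ3
  have hρ3p : 0 < ρ3 := by positivity
  refine ⟨min (min 1 (ρ1 / 4)) (min (ρ2 / 4) ρ3), by positivity,
    (min_le_left _ _).trans (min_le_left _ _), ?_⟩
  intro r hr hrρ δ ε y hδ hε hy1 hy2 x1 x2 x3 x4 h1 h2 h3 h4
  have hr1 : r ≤ 1 := hrρ.trans ((min_le_left _ _).trans (min_le_left _ _))
  have hr2 : r ≤ ρ1 / 4 := hrρ.trans ((min_le_left _ _).trans (min_le_right _ _))
  have hr3 : r ≤ ρ2 / 4 := hrρ.trans ((min_le_right _ _).trans (min_le_left _ _))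
  have hr4 : r ≤ ρ3 := hrρ.trans ((min_le_right _ _).trans (min_le_right _ _))
  have hGr : |G2| * (3 * r) ≤ κ / 12 := by
    have h5 : |G2| * (3 * r) ≤ (|G2| + 1) * (3 * ρ3) := by
      have := abs_nonneg G2
      nlinarith
    refine h5.trans (le_of_eq ?_)
    rw [hρ3]
    field_simp
    norm_num
  have key := hS r (κ / 6) (fun x => F (pt y x δ ε) - G1 * x - G2 * x ^ 2 / 2)
    (fun x => Dv ex F (pt y x δ ε) - G1 - G2 * x)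
    (fun x => Dv ex (Dv ex F) (pt y x δ ε) - G2) hr hr1 (by positivity) ?_ x1 x2 x3 x4 h1 h2 h3 h4
  · set s := x1 + x2 + x3 + x4 with hs
    have e : S4 (fun x => F (pt y x δ ε)) x1 x2 x3 x4 -
        (G1 * (x1 + x2 - x3 - x4) - G2 * (x1 * x2 - x3 * x4)) =
        ((F (pt y x1 δ ε) - G1 * x1 - G2 * x1 ^ 2 / 2) + (F (pt y x2 δ ε) - G1 * x2 - G2 * x2 ^ 2 / 2) -
          (F (pt y x3 δ ε) - G1 * x3 - G2 * x3 ^ 2 / 2) - (F (pt y x4 δ ε) - G1 * x4 - G2 * x4 ^ 2 / 2)) +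
        G2 / 2 * s * (x1 + x2 - x3 - x4) := by
      unfold S4
      rw [hs]
      ring
    rw [e]
    refine (abs_add_le _ _).trans ?_
    have hs4 : |s| ≤ 4 * r := by
      rw [abs_le] at h1 h2 h3 h4 ⊢
      constructor <;> rw [hs] <;> linarith [h1.1, h1.2, h2.1, h2.2, h3.1, h3.2, h4.1, h4.2]
    have h5 : |G2 / 2 * s * (x1 + x2 - x3 - x4)| ≤ κ / 12 * |x1 + x2 - x3 - x4| := by
      rw [abs_mul, abs_mul, abs_div, abs_two]
      refine mul_le_mul_of_nonneg_right ?_ (abs_nonneg _)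
      have h6 : |G2| / 2 * |s| ≤ |G2| / 2 * (4 * r) :=
        mul_le_mul_of_nonneg_left hs4 (by positivity)
      have := abs_nonneg G2
      nlinarith
    have h7 : |x1 + x2 - x3 - x4| ≤ dS x1 x2 x3 x4 := by
      unfold dS
      linarith [abs_nonneg (x1 * x2 - x3 * x4)]
    have h8 := dS_nonneg x1 x2 x3 x4
    nlinarith
  · intro x hx
    have hx3 : |x| ≤ 3 * r := abs_le.2 ⟨hx.1, hx.2⟩
    have hd1 := hc1 (dist_pt (y := y) (x := x) (δ := δ) (ε := ε) (a0 := a0) (b0 := b0) (δ0 := δ0)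
      (ε0 := ε0) (ρ := ρ1) (by linarith) (by linarith) (by linarith) (by linarith) (by linarith))
    have hd2 := hc2 (dist_pt (y := y) (x := x) (δ := δ) (ε := ε) (a0 := a0) (b0 := b0) (δ0 := δ0)
      (ε0 := ε0) (ρ := ρ2) (by linarith) (by linarith) (by linarith) (by linarith) (by linarith))
    rw [Real.dist_eq] at hd1 hd2
    refine ⟨?_, ?_, ?_, ?_⟩
    · have h5 := ((has_x hF y x δ ε).sub ((hasDerivAt_id x).const_mul G1)).sub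
        (((hasDerivAt_pow 2 x).const_mul G2).div_const 2)
      refine h5.congr_deriv ?_
      simp
      ring
    · have h5 := ((has_x (Dv_smooth hF ex) y x δ ε).sub_const G1).sub
        ((hasDerivAt_id x).const_mul G2)
      refine h5.congr_deriv ?_
      simp
    · have h5 : |Dv ex F (pt y x δ ε) - G1 - G2 * x| ≤ |Dv ex F (pt y x δ ε) - G1| + |G2 * x| :=
        abs_sub _ _
      have h6 : |G2 * x| ≤ |G2| * (3 * r) := by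
        rw [abs_mul]
        exact mul_le_mul_of_nonneg_left hx3 (abs_nonneg _)
      linarith
    · linarith

lemma tri_aux (u w : ℝ) : |u| ≤ |w - u| + |w| := by
  have := abs_sub_abs_le_abs_sub u w
  rw [abs_sub_comm u w] at this
  linarith

theorem phase_bounds (hS : SumLem) (a0 b0 δ0 ε0 : ℝ) (ha : a0 ≠ 0) (hb : b0 ≠ 0 ∨ δ0 ≠ 0) :
    ∃ r c0 L0 : ℝ, 0 < r ∧ r ≤ 1 ∧ 0 < c0 ∧ 0 < L0 ∧ ∀ x1 x2 x3 x4 : ℝ, |x1| ≤ r → |x2| ≤ r →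
    |x3| ≤ r → |x4| ≤ r → ∃ j : Fin 2, ∀ (δ ε : ℝ) (y : ℝ × ℝ), |δ - δ0| ≤ r → |ε - ε0| ≤ r →
      |y.1 - a0| ≤ 2 * r → |y.2 - b0| ≤ 2 * r →
      c0 * dS x1 x2 x3 x4 ≤ |S4 (fun x => PhiJ j 1 (pt y x δ ε)) x1 x2 x3 x4| ∧
      |S4 (fun x => PhiJ j 2 (pt y x δ ε)) x1 x2 x3 x4| ≤ L0 * dS x1 x2 x3 x4 ∧
      |S4 (fun x => PhiJ j 3 (pt y x δ ε)) x1 x2 x3 x4| ≤ L0 * dS x1 x2 x3 x4 := by
  have hdet := det_pos a0 b0 δ0 ε0 ha hb
  set X0 := P0 a0 b0 δ0 ε0 with hX0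
  set X1 := P1 a0 b0 δ0 ε0 with hX1
  set X2 := P2 a0 b0 δ0 ε0 with hX2
  set Δ := 2 * X1 ^ 2 - X0 * X2 with hΔ
  set B := |X0| + 3 * |X1| + |X2| + 1 with hB
  have hBp : 0 < B := by positivity
  set c := Δ / B with hc
  have hcp : 0 < c := by positivity
  obtain ⟨ρ0, hρ0, hρ01, hap0⟩ := approx hS a0 b0 δ0 ε0 (PhiJ_smooth 0 1) (half_pos hcp)
  obtain ⟨ρ1, hρ1, hρ11, hap1⟩ := approx hS a0 b0 δ0 ε0 (PhiJ_smooth 1 1) (half_pos hcp)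
  have hup : ∀ (j : Fin 2) (k : ℕ), ∃ L : ℝ, 0 < L ∧ ∀ r : ℝ, 0 < r → r ≤ 1 →
      ∀ (δ ε : ℝ) (y : ℝ × ℝ), |δ - δ0| ≤ r →
      |ε - ε0| ≤ r → |y.1 - a0| ≤ 2 * r → |y.2 - b0| ≤ 2 * r → ∀ x1 x2 x3 x4 : ℝ, |x1| ≤ r →
      |x2| ≤ r → |x3| ≤ r → |x4| ≤ r →
      |S4 (fun x => PhiJ j k (pt y x δ ε)) x1 x2 x3 x4| ≤ L * dS x1 x2 x3 x4 :=
    fun j k => upper hS a0 b0 δ0 ε0 (PhiJ_smooth j k)
  choose L hL hLb using hup
  set L0 := L 0 2 + L 0 3 + L 1 2 + L 1 3 with hL0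
  have p02 := hL 0 2
  have p03 := hL 0 3
  have p12 := hL 1 2
  have p13 := hL 1 3
  refine ⟨min ρ0 ρ1, c / 2, L0, by positivity, (min_le_left _ _).trans hρ01, by positivity,
    by positivity, ?_⟩
  intro x1 x2 x3 x4 h1 h2 h3 h4
  set r := min ρ0 ρ1 with hr
  have hrp : 0 < r := by positivity
  have hr0 : r ≤ ρ0 := min_le_left _ _
  have hr1 : r ≤ ρ1 := min_le_right _ _
  set Ds := x1 + x2 - x3 - x4 with hDs
  set Dp := x1 * x2 - x3 * x4 with hDp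
  have hdS : dS x1 x2 x3 x4 = |Ds| + |Dp| := rfl
  have hnn := dS_nonneg x1 x2 x3 x4
  have hLle : ∀ (j : Fin 2) (k : ℕ), (k = 2 ∨ k = 3) → L j k ≤ L0 := by
    intro j k hk
    fin_cases j <;> rcases hk with rfl | rfl <;> simp only [hL0] <;>
      first
      | (show L 0 2 ≤ _; linarith)
      | (show L 0 3 ≤ _; linarith)
      | (show L 1 2 ≤ _; linarith)
      | (show L 1 3 ≤ _; linarith)
  have hupper : ∀ (j : Fin 2) (δ ε : ℝ) (y : ℝ × ℝ), |δ - δ0| ≤ r → |ε - ε0| ≤ r →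
      |y.1 - a0| ≤ 2 * r → |y.2 - b0| ≤ 2 * r →
      |S4 (fun x => PhiJ j 2 (pt y x δ ε)) x1 x2 x3 x4| ≤ L0 * dS x1 x2 x3 x4 ∧
      |S4 (fun x => PhiJ j 3 (pt y x δ ε)) x1 x2 x3 x4| ≤ L0 * dS x1 x2 x3 x4 := by
    intro j δ ε y hδ hε hy1 hy2
    constructor
    · exact (hLb j 2 r hrp (hr0.trans hρ01) δ ε y hδ hε hy1 hy2 x1 x2 x3 x4 h1 h2 h3 h4).trans
        (mul_le_mul_of_nonneg_right (hLle j 2 (Or.inl rfl)) hnn)
    · exact (hLb j 3 r hrp (hr0.trans hρ01) δ ε y hδ hε hy1 hy2 x1 x2 x3 x4 h1 h2 h3 h4).trans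
        (mul_le_mul_of_nonneg_right (hLle j 3 (Or.inr rfl)) hnn)
  -- the linear map
  set u := X1 * Ds - X2 * Dp with hu
  set v := X0 * Ds - 2 * X1 * Dp with hv
  have hlin : Δ * (|Ds| + |Dp|) ≤ (2 * |X1| + |X0|) * |u| + (|X2| + |X1|) * |v| := by
    have e1 : Δ * Ds = 2 * X1 * u - X2 * v := by rw [hΔ, hu, hv]; ring
    have e2 : Δ * Dp = X0 * u - X1 * v := by rw [hΔ, hu, hv]; ring
    have b1 : Δ * |Ds| ≤ 2 * |X1| * |u| + |X2| * |v| := by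
      have : |Δ * Ds| = Δ * |Ds| := by rw [abs_mul, abs_of_pos hdet]
      rw [← this, e1]
      refine (abs_sub _ _).trans ?_
      rw [abs_mul, abs_mul, abs_mul, abs_two]
    have b2 : Δ * |Dp| ≤ |X0| * |u| + |X1| * |v| := by
      have : |Δ * Dp| = Δ * |Dp| := by rw [abs_mul, abs_of_pos hdet]
      rw [← this, e2]
      refine (abs_sub _ _).trans ?_
      rw [abs_mul, abs_mul]
    nlinarith
  have hmax : ∀ w : ℝ, |u| ≤ w → |v| ≤ w → c * dS x1 x2 x3 x4 ≤ w := by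
    intro w h5 h6
    have hw : 0 ≤ w := (abs_nonneg u).trans h5
    rw [hc, hdS, div_mul_eq_mul_div, div_le_iff₀ hBp]
    refine hlin.trans ?_
    have a0' := abs_nonneg X0
    have a1' := abs_nonneg X1
    have a2' := abs_nonneg X2
    have t1 : (2 * |X1| + |X0|) * |u| ≤ (2 * |X1| + |X0|) * w :=
      mul_le_mul_of_nonneg_left h5 (by positivity)
    have t2 : (|X2| + |X1|) * |v| ≤ (|X2| + |X1|) * w :=
      mul_le_mul_of_nonneg_left h6 (by positivity)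
    rw [hB]
    nlinarith
  rcases le_total |v| |u| with hvu | hvu
  · refine ⟨0, fun δ ε y hδ hε hy1 hy2 => ⟨?_, hupper 0 δ ε y hδ hε hy1 hy2⟩⟩
    have h5 := hap0 r hrp hr0 δ ε y hδ hε hy1 hy2 x1 x2 x3 x4 h1 h2 h3 h4
    have h6 : Dv ex (PhiJ 0 1) (pt (a0, b0) 0 δ0 ε0) * (x1 + x2 - x3 - x4) -
        Dv ex (Dv ex (PhiJ 0 1)) (pt (a0, b0) 0 δ0 ε0) * (x1 * x2 - x3 * x4) = u := rfl
    rw [h6] at h5
    have h7 := hmax |u| le_rfl hvu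
    have h8 : |u| ≤ |S4 (fun x => PhiJ 0 1 (pt y x δ ε)) x1 x2 x3 x4 - u| +
        |S4 (fun x => PhiJ 0 1 (pt y x δ ε)) x1 x2 x3 x4| := tri_aux _ _
    linarith
  · refine ⟨1, fun δ ε y hδ hε hy1 hy2 => ⟨?_, hupper 1 δ ε y hδ hε hy1 hy2⟩⟩
    have h5 := hap1 r hrp hr1 δ ε y hδ hε hy1 hy2 x1 x2 x3 x4 h1 h2 h3 h4
    have h6 : Dv ex (PhiJ 1 1) (pt (a0, b0) 0 δ0 ε0) * (x1 + x2 - x3 - x4) -
        Dv ex (Dv ex (PhiJ 1 1)) (pt (a0, b0) 0 δ0 ε0) * (x1 * x2 - x3 * x4) = v := by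
      rw [(R1_eq a0 b0 δ0 ε0).1, (R1_eq a0 b0 δ0 ε0).2]
    rw [h6] at h5
    have h7 := hmax |v| hvu le_rfl
    have h8 : |v| ≤ |S4 (fun x => PhiJ 1 1 (pt y x δ ε)) x1 x2 x3 x4 - v| +
        |S4 (fun x => PhiJ 1 1 (pt y x δ ε)) x1 x2 x3 x4| := tri_aux _ _
    linarith

end Pool.Agent.TH883.MV
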