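import Pool.Agent.TH883.MV.LocKb
set_option autoImplicit false

/-! # Kernel bound near a point, part 3: amplitudes (project MV of helper407) -/

namespace Pool.Agent.TH883.MV

open MeasureTheory Set Complex
open scoped ENNReal NNReal Real ContDiff ComplexConjugate
open Pool.Agent.TH407.MV

/-- twice continuously differentiable with bounds -/
def B2 (N : ℝ) (f : ℝ → ℂ) : Prop := ∃ f1 f2 : ℝ → ℂ, Continuous f2 ∧
  (∀ s, HasDerivAt f (f1 s) s) ∧ (∀ s, HasDerivAt f1 (f2 s) s) ∧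
  ∀ s, ‖f s‖ ≤ N ∧ ‖f1 s‖ ≤ N ∧ ‖f2 s‖ ≤ N

lemma B2.nonneg {N : ℝ} {f : ℝ → ℂ} (h : B2 N f) : 0 ≤ N := by
  obtain ⟨f1, f2, _, _, _, h⟩ := h
  exact (norm_nonneg _).trans (h 0).1

lemma B2.mul {N M : ℝ} {f g : ℝ → ℂ} (hf : B2 N f) (hg : B2 M g) :
    B2 (4 * N * M) (fun s => f s * g s) := by
  have hN := hf.nonneg
  have hM := hg.nonneg
  obtain ⟨f1, f2, cf, df, df1, bf⟩ := hf
  obtain ⟨g1, g2, cg, dg, dg1, bg⟩ := hg
  have cf1 : Continuous f1 := continuous_iff_continuousAt.2 fun s => (df1 s).continuousAt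
  have cg1 : Continuous g1 := continuous_iff_continuousAt.2 fun s => (dg1 s).continuousAt
  have cf0 : Continuous f := continuous_iff_continuousAt.2 fun s => (df s).continuousAt
  have cg0 : Continuous g := continuous_iff_continuousAt.2 fun s => (dg s).continuousAt
  refine ⟨fun s => f1 s * g s + f s * g1 s,
    fun s => (f2 s * g s + f1 s * g1 s) + (f1 s * g1 s + f s * g2 s), by fun_prop,
    fun s => (df s).mul (dg s), fun s => ((df1 s).mul (dg s)).add ((df s).mul (dg1 s)), ?_⟩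
  intro s
  obtain ⟨a0, a1, a2⟩ := bf s
  obtain ⟨b0, b1, b2⟩ := bg s
  have hp : ∀ x y : ℂ, ‖x‖ ≤ N → ‖y‖ ≤ M → ‖x * y‖ ≤ N * M := by
    intro x y hx hy
    rw [norm_mul]
    exact mul_le_mul hx hy (norm_nonneg _) hN
  have hNM : 0 ≤ N * M := mul_nonneg hN hM
  refine ⟨(hp _ _ a0 b0).trans (by linarith), ?_, ?_⟩
  · refine (norm_add_le _ _).trans ?_
    have := hp _ _ a1 b0
    have := hp _ _ a0 b1
    linarith
  · refine (norm_add_le _ _).trans ?_
    have t1 := norm_add_le (f2 s * g s) (f1 s * g1 s)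
    have t2 := norm_add_le (f1 s * g1 s) (f s * g2 s)
    have := hp _ _ a2 b0
    have := hp _ _ a1 b1
    have := hp _ _ a0 b2
    linarith

lemma B2.comp_lin {N : ℝ} {f : ℝ → ℂ} (hf : B2 N f) {α : ℝ} (β : ℝ) {K : ℝ} (hK : 1 ≤ K)
    (hα : |α| ≤ K) : B2 (N * K ^ 2) (fun s => f (α * s + β)) := by
  have hN := hf.nonneg
  obtain ⟨f1, f2, cf, df, df1, bf⟩ := hf
  have hl : ∀ s : ℝ, HasDerivAt (fun s : ℝ => α * s + β) α s := by
    intro s
    have := ((hasDerivAt_id s).const_mul α).add_const β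
    simpa using this
  refine ⟨fun s => α • f1 (α * s + β), fun s => α • (α • f2 (α * s + β)), by fun_prop,
    fun s => (df (α * s + β)).scomp s (hl s),
    fun s => ((df1 (α * s + β)).scomp s (hl s)).const_smul α, ?_⟩
  intro s
  obtain ⟨a0, a1, a2⟩ := bf (α * s + β)
  have hK2 : 1 ≤ K ^ 2 := one_le_pow₀ hK
  have hKK : K ≤ K ^ 2 := by nlinarith
  refine ⟨a0.trans (by nlinarith), ?_, ?_⟩
  · rw [norm_smul, Real.norm_eq_abs]
    calc |α| * ‖f1 (α * s + β)‖ ≤ K * N := mul_le_mul hα a1 (norm_nonneg _) (by linarith)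
      _ ≤ N * K ^ 2 := by nlinarith
  · rw [norm_smul, norm_smul, Real.norm_eq_abs]
    calc |α| * (|α| * ‖f2 (α * s + β)‖) ≤ K * (K * N) :=
          mul_le_mul hα (mul_le_mul hα a2 (norm_nonneg _) (by linarith)) (by positivity)
            (by linarith)
      _ = N * K ^ 2 := by ring

lemma B2.conj {N : ℝ} {f : ℝ → ℂ} (hf : B2 N f) : B2 N (fun s => conj (f s)) := by
  obtain ⟨f1, f2, cf, df, df1, bf⟩ := hf
  refine ⟨fun s => conj (f1 s), fun s => conj (f2 s), Complex.continuous_conj.comp cf,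
    fun s => (df s).star, fun s => (df1 s).star, fun s => ?_⟩
  simp only [RCLike.norm_conj]
  exact bf s

lemma B2.const_mul {N : ℝ} {f : ℝ → ℂ} (hf : B2 N f) {c : ℂ} (hc : ‖c‖ ≤ 1) :
    B2 N (fun s => c * f s) := by
  obtain ⟨f1, f2, cf, df, df1, bf⟩ := hf
  refine ⟨fun s => c * f1 s, fun s => c * f2 s, by fun_prop,
    fun s => (df s).const_mul c, fun s => (df1 s).const_mul c, fun s => ?_⟩
  obtain ⟨a0, a1, a2⟩ := bf s
  have hp : ∀ x : ℂ, ‖x‖ ≤ N → ‖c * x‖ ≤ N := by
    intro x hx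
    rw [norm_mul]
    calc ‖c‖ * ‖x‖ ≤ 1 * ‖x‖ := mul_le_mul_of_nonneg_right hc (norm_nonneg _)
      _ ≤ N := by rw [one_mul]; exact hx
  exact ⟨hp _ a0, hp _ a1, hp _ a2⟩

lemma chi_contDiff : ContDiff ℝ ∞ chi := by
  unfold chi
  have h : ContDiff ℝ ∞ Real.smoothTransition := Real.smoothTransition.contDiff
  exact (h.comp (by fun_prop)).mul (h.comp (by fun_prop))

lemma chi_zero {s : ℝ} (h : 2 ≤ |s|) : chi s = 0 := by
  unfold chi
  rcases le_abs.1 h with h | h
  · rw [Real.smoothTransition.zero_of_nonpos (x := 2 - s) (by linarith), mul_zero]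
  · rw [Real.smoothTransition.zero_of_nonpos (x := 2 + s) (by linarith), zero_mul]

lemma chi_abs (s : ℝ) : |chi s| ≤ 1 := by
  unfold chi
  rw [abs_mul, abs_of_nonneg (Real.smoothTransition.nonneg _),
    abs_of_nonneg (Real.smoothTransition.nonneg _)]
  exact mul_le_one₀ (Real.smoothTransition.le_one _) (Real.smoothTransition.nonneg _)
    (Real.smoothTransition.le_one _)

lemma chi_B2 : ∃ C : ℝ, 1 ≤ C ∧ B2 C (fun s => (chi s : ℂ)) := by
  set g : ℝ → ℂ := fun s => (chi s : ℂ) with hg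
  have hs : ContDiff ℝ ∞ g := Complex.ofRealCLM.contDiff.comp chi_contDiff
  have hc : HasCompactSupport g := by
    refine HasCompactSupport.intro (K := Icc (-2 : ℝ) 2) isCompact_Icc ?_
    intro s hs
    rw [hg]
    simp only
    rw [chi_zero, Complex.ofReal_zero]
    by_contra h
    push Not at h
    rw [abs_lt] at h
    exact hs ⟨h.1.le, h.2.le⟩
  have hs1 : ContDiff ℝ ∞ (deriv g) := (contDiff_infty_iff_deriv.1 hs).2
  have hs2 : ContDiff ℝ ∞ (deriv (deriv g)) := (contDiff_infty_iff_deriv.1 hs1).2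
  obtain ⟨C0, hC0⟩ := hs.continuous.bounded_above_of_compact_support hc
  obtain ⟨C1, hC1⟩ := hs1.continuous.bounded_above_of_compact_support hc.deriv
  obtain ⟨C2, hC2⟩ := hs2.continuous.bounded_above_of_compact_support hc.deriv.deriv
  refine ⟨|C0| + |C1| + |C2| + 1, by have := abs_nonneg C0; have := abs_nonneg C1; have := abs_nonneg C2; linarith,
    deriv g, deriv (deriv g), hs2.continuous, ?_, ?_, ?_⟩
  · intro s
    exact (hs.differentiable (by norm_cast) s).hasDerivAt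
  · intro s
    exact (hs1.differentiable (by norm_cast) s).hasDerivAt
  · intro s
    have := hC0 s
    have := hC1 s
    have := hC2 s
    have := abs_nonneg C0
    have := abs_nonneg C1
    have := abs_nonneg C2
    have := le_abs_self C0
    have := le_abs_self C1
    have := le_abs_self C2
    exact ⟨by linarith, by linarith, by linarith⟩

lemma cd_abs (δ x : ℝ) : |cd δ x| ≤ 1 := by
  unfold cd
  rw [abs_inv, abs_of_nonneg (Real.sqrt_nonneg _)]
  apply inv_le_one_of_one_le₀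
  rw [Real.one_le_sqrt]
  nlinarith [sq_nonneg (δ * x)]

lemma AC_B2 {A : ℝ → ℂ} (hA : AC A) : B2 1 A := by
  obtain ⟨A1, A2, c, d, d1, b⟩ := hA
  exact ⟨A1, A2, c, d, d1, b⟩

lemma A_line {A : ℝ → ℂ} (hA : AC A) (j : Fin 2) (u δ x : ℝ) (hx : |x| ≤ 1) :
    B2 1 (fun s => A (wv δ (yy j s u) x)) := by
  have h : |cd δ x * (if j = 0 then 1 else x)| ≤ 1 := by
    rw [abs_mul]
    have h1 := cd_abs δ x
    have h2 : |(if j = 0 then (1 : ℝ) else x)| ≤ 1 := by
      split_ifs
      · simp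
      · exact hx
    exact mul_le_one₀ h1 (abs_nonneg _) h2
  have h3 := (AC_B2 hA).comp_lin ((cd δ x * (if j = 0 then x else 1)) * u) le_rfl h
  have e : (fun s => A (wv δ (yy j s u) x)) = fun s => A ((cd δ x * (if j = 0 then 1 else x)) * s +
      (cd δ x * (if j = 0 then x else 1)) * u) := by
    funext s
    rw [wv_yy]
  rw [e]
  simpa using h3

end Pool.Agent.TH883.MV
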